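import Pool.Agent.H59.L.S8.H176.DT.Stm

/-!
# Simple roots are unramified
-/

set_option autoImplicit false
universe u
namespace Pool.Agent.Y901.DT
open Polynomial

/-- coefficients in `V` -/
def Cf {E F : Type u} [Field E] [Field F] [Algebra E F] (V : ValuationSubring F) (q : E[X]) :
    Prop := ∀ i, algebraMap E F (q.coeff i) ∈ V

section
variable {E F : Type u} [Field E] [Field F] [Algebra E F] {V : ValuationSubring F}

lemma Cf.div {f g : E[X]} (hf : Cf (F := F) V f) (hg : Cf (F := F) V g) (hm : g.Monic) :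
    Cf (F := F) V (f /ₘ g) ∧ Cf (F := F) V (f %ₘ g) := by
  obtain ⟨W, hW⟩ : ∃ W : Subring E, W = V.toSubring.comap (algebraMap E F) := ⟨_, rfl⟩
  have hmem : ∀ a : E, algebraMap E F a ∈ V ↔ a ∈ W := fun a => by rw [hW]; rfl
  have hf' : (↑f.coeffs : Set E) ⊆ W := by
    intro a ha
    obtain ⟨n, -, rfl⟩ := Polynomial.mem_coeffs_iff.1 ha
    exact (hmem _).1 (hf n)
  have hg' : (↑g.coeffs : Set E) ⊆ W := by
    intro a ha
    obtain ⟨n, -, rfl⟩ := Polynomial.mem_coeffs_iff.1 ha
    exact (hmem _).1 (hg n)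
  have hgm : (g.toSubring W hg').Monic := (Polynomial.monic_toSubring _ _ _).2 hm
  have e1 := Polynomial.map_divByMonic (p := f.toSubring W hf') W.subtype hgm
  have e2 := Polynomial.map_modByMonic (p := f.toSubring W hf') W.subtype hgm
  have e3 : (f.toSubring W hf').map W.subtype = f := Polynomial.map_toSubring _ _ _
  have e4 : (g.toSubring W hg').map W.subtype = g := Polynomial.map_toSubring _ _ _
  rw [e3, e4] at e1 e2
  constructor
  · intro i
    rw [← e1, coeff_map]
    exact (hmem _).2 (Subtype.prop _)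
  · intro i
    rw [← e2, coeff_map]
    exact (hmem _).2 (Subtype.prop _)

lemma Cf.aeval_mem {q : E[X]} (hq : Cf (F := F) V q) {η : F} (hη : η ∈ V) : aeval η q ∈ V := by
  rw [aeval_eq_sum_range]
  refine sum_mem fun i _ => ?_
  rw [Algebra.smul_def]
  exact mul_mem (hq i) (pow_mem hη i)

lemma aeval_lt {q : E[X]} (hq : ∀ i, V.valuation (algebraMap E F (q.coeff i)) < 1) {η : F}
    (hη : η ∈ V) : V.valuation (aeval η q) < 1 := by
  rw [aeval_eq_sum_range]
  refine Valuation.map_sum_lt _ one_ne_zero fun i _ => ?_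
  rw [Algebra.smul_def, map_mul]
  exact mul_lt_one_of_lt_of_le (hq i) ((V.valuation_le_one_iff _).2 (pow_mem hη i))

lemma Cf.der {q : E[X]} (hq : Cf (F := F) V q) : Cf (F := F) V (derivative q) := by
  intro i
  rw [coeff_derivative, map_mul]
  refine mul_mem (hq _) ?_
  have : algebraMap E F ((i : E) + 1) = ((i + 1 : ℕ) : F) := by push_cast; simp
  rw [this]
  exact natCast_mem _ _

lemma der_lt {q : E[X]} (hq : ∀ i, V.valuation (algebraMap E F (q.coeff i)) < 1) (i : ℕ) :
    V.valuation (algebraMap E F ((derivative q).coeff i)) < 1 := by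
  rw [coeff_derivative, map_mul, map_mul]
  refine mul_lt_one_of_lt_of_le (hq _) ?_
  have : algebraMap E F ((i : E) + 1) = ((i + 1 : ℕ) : F) := by push_cast; simp
  rw [this, V.valuation_le_one_iff]
  exact natCast_mem _ _

lemma mem_of_root {η : F} {f : E[X]} (hm : f.Monic) (hf : Cf (F := F) V f)
    (h0 : aeval η f = 0) : η ∈ V := by
  rw [← V.valuation_le_one_iff]
  by_contra hcon
  push Not at hcon
  have hη0 : V.valuation η ≠ 0 := (zero_lt_one.trans hcon).ne'
  rw [aeval_eq_sum_range, Finset.sum_range_succ] at h0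
  have h1 : V.valuation (∑ i ∈ Finset.range f.natDegree, f.coeff i • η ^ i) <
      V.valuation η ^ f.natDegree := by
    refine Valuation.map_sum_lt _ (pow_ne_zero _ hη0) fun i hi => ?_
    rw [Algebra.smul_def, map_mul, map_pow]
    have h2 : V.valuation (algebraMap E F (f.coeff i)) ≤ 1 := (V.valuation_le_one_iff _).2 (hf i)
    calc V.valuation (algebraMap E F (f.coeff i)) * V.valuation η ^ i ≤ 1 * V.valuation η ^ i :=
          mul_le_mul_left h2 _
      _ = V.valuation η ^ i := one_mul _
      _ < V.valuation η ^ f.natDegree := pow_lt_pow_right₀ hcon (Finset.mem_range.1 hi)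
  have h3 : V.valuation (∑ i ∈ Finset.range f.natDegree, f.coeff i • η ^ i) =
      V.valuation η ^ f.natDegree := by
    have h4 : ∑ i ∈ Finset.range f.natDegree, f.coeff i • η ^ i = -(η ^ f.natDegree) := by
      have h5 : f.coeff f.natDegree = 1 := hm.coeff_natDegree
      rw [h5, one_smul] at h0
      exact eq_neg_of_add_eq_zero_left h0
    rw [h4, Valuation.map_neg, map_pow]
  exact h1.ne h3

/-- Simple roots are unramified. -/
theorem core (V : ValuationSubring F) (η : F)
    (f : E[X]) (hm : f.Monic) (hf : Cf V f) (h0 : aeval η f = 0)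
    (h1 : V.valuation (aeval η (derivative f)) = 1) : ∃ μ g h : E[X],
    μ.Monic ∧ g.Monic ∧ (∀ i, algebraMap E F (μ.coeff i) ∈ V) ∧
    (∀ i, algebraMap E F (g.coeff i) ∈ V) ∧ (∀ i, algebraMap E F (h.coeff i) ∈ V) ∧
    (∀ i, V.valuation (algebraMap E F ((μ - g * h).coeff i)) < 1) ∧ aeval η μ = 0 ∧
    V.valuation (aeval η g) < 1 ∧ V.valuation (aeval η h) = 1 ∧
    ∀ q : E[X], (∀ i, algebraMap E F (q.coeff i) ∈ V) → q.degree < g.degree →
      V.valuation (aeval η q) < 1 → ∀ i, V.valuation (algebraMap E F (q.coeff i)) < 1 := by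
  classical
  have hη : η ∈ V := mem_of_root hm hf h0
  have hex : ∃ n : ℕ, ∃ g : E[X], g.natDegree = n ∧ g.Monic ∧ Cf (F := F) V g ∧
      V.valuation (aeval η g) < 1 := ⟨_, f, rfl, hm, hf, by rw [h0, map_zero]; exact zero_lt_one⟩
  obtain ⟨g, hgn, hgm, hg, hg1⟩ := Nat.find_spec hex
  have hmin : ∀ g' : E[X], g'.natDegree < g.natDegree → g'.Monic → Cf (F := F) V g' →
      ¬ V.valuation (aeval η g') < 1 := by
    intro g' h2 h3 h4 h5
    rw [hgn] at h2
    exact Nat.find_min hex h2 ⟨g', rfl, h3, h4, h5⟩
  have key : ∀ q : E[X], (∀ i, algebraMap E F (q.coeff i) ∈ V) → q.degree < g.degree →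
      V.valuation (aeval η q) < 1 → ∀ i, V.valuation (algebraMap E F (q.coeff i)) < 1 := by
    intro q hq hdeg hq1
    by_contra hcon
    push Not at hcon
    obtain ⟨i0, hi0⟩ := hcon
    have hq0 : q ≠ 0 := by
      rintro rfl
      rw [coeff_zero, map_zero, map_zero] at hi0
      exact absurd hi0 (not_le.2 zero_lt_one)
    have hi0s : i0 ∈ q.support.filter fun i => V.valuation (algebraMap E F (q.coeff i)) = 1 := by
      rw [Finset.mem_filter, mem_support_iff]
      refine ⟨?_, le_antisymm ((V.valuation_le_one_iff _).2 (hq i0)) hi0⟩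
      intro h
      rw [h, map_zero, map_zero] at hi0
      exact absurd hi0 (not_le.2 zero_lt_one)
    obtain ⟨j, hj, hjmax⟩ := (q.support.filter fun i =>
      V.valuation (algebraMap E F (q.coeff i)) = 1).exists_max_image id ⟨i0, hi0s⟩
    rw [Finset.mem_filter] at hj
    have hjlt : ∀ i, j < i → V.valuation (algebraMap E F (q.coeff i)) < 1 := by
      intro i hi
      by_contra h
      push Not at h
      have h2 : V.valuation (algebraMap E F (q.coeff i)) = 1 :=
        le_antisymm ((V.valuation_le_one_iff _).2 (hq i)) h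
      have h3 : i ∈ q.support.filter fun i => V.valuation (algebraMap E F (q.coeff i)) = 1 := by
        rw [Finset.mem_filter, mem_support_iff]
        refine ⟨?_, h2⟩
        intro h4
        rw [h4, map_zero, map_zero] at h2
        exact zero_ne_one h2
      have h4 := hjmax i h3
      simp only [id] at h4
      omega
    obtain ⟨a, ha⟩ : ∃ a : E, a = q.coeff j := ⟨_, rfl⟩
    have ha1 : V.valuation (algebraMap E F a) = 1 := by rw [ha]; exact hj.2
    have ha0 : a ≠ 0 := by
      rintro rfl
      rw [map_zero, map_zero] at ha1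
      exact zero_ne_one ha1
    have hai : algebraMap E F a⁻¹ ∈ V := by
      rw [← V.valuation_le_one_iff, map_inv₀, map_inv₀, ha1, inv_one]
    -- the truncated polynomial
    obtain ⟨p, hp⟩ : ∃ p : E[X], ∀ i, p.coeff i = if i ≤ j then q.coeff i else 0 := by
      refine ⟨∑ i ∈ Finset.range (j + 1), monomial i (q.coeff i), fun i => ?_⟩
      rw [finsetSum_coeff]
      simp only [coeff_monomial]
      rw [Finset.sum_ite_eq']
      simp only [Finset.mem_range, Nat.lt_succ_iff]
    have hpq : ∀ i, V.valuation (algebraMap E F ((q - p).coeff i)) < 1 := by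
      intro i
      rw [coeff_sub, hp]
      split_ifs with h
      · rw [sub_self, map_zero, map_zero]
        exact zero_lt_one
      · rw [sub_zero]
        exact hjlt i (not_le.1 h)
    have hp1 : V.valuation (aeval η p) < 1 := by
      have h2 := aeval_lt hpq hη
      rw [map_sub] at h2
      have h3 : aeval η p = aeval η q - (aeval η q - aeval η p) := by ring
      rw [h3]
      exact lt_of_le_of_lt (Valuation.map_sub _ _ _) (max_lt hq1 h2)
    have hpC : Cf (F := F) V p := by
      intro i
      rw [hp]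
      split_ifs
      · exact hq i
      · rw [map_zero]; exact zero_mem _
    have hpn : p.natDegree = j := by
      apply le_antisymm
      · rw [natDegree_le_iff_coeff_eq_zero]
        intro i hi
        rw [hp, if_neg (not_le.2 hi)]
      · apply le_natDegree_of_ne_zero
        rw [hp, if_pos le_rfl, ← ha]
        exact ha0
    have hpl : p.leadingCoeff = a := by
      rw [leadingCoeff, hpn, hp, if_pos le_rfl, ha]
    have hjg : j < g.natDegree := by
      have h2 : j ≤ q.natDegree := le_natDegree_of_ne_zero (by rw [← ha]; exact ha0)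
      have h3 : q.natDegree < g.natDegree := natDegree_lt_natDegree hq0 hdeg
      omega
    refine hmin (C a⁻¹ * p) ?_ ?_ ?_ ?_
    · rw [natDegree_C_mul (inv_ne_zero ha0), hpn]
      exact hjg
    · rw [Monic, leadingCoeff_mul, leadingCoeff_C, hpl, inv_mul_cancel₀ ha0]
    · intro i
      rw [coeff_C_mul, map_mul]
      exact mul_mem hai (hpC i)
    · rw [map_mul, aeval_C, map_mul, map_inv₀, map_inv₀, ha1, inv_one, one_mul]
      exact hp1
  obtain ⟨hh, hs⟩ := Cf.div hf hg hgm
  have hdm : f %ₘ g + g * (f /ₘ g) = f := modByMonic_add_div f g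
  have hhη := hh.aeval_mem hη
  have hhη1 : V.valuation (aeval η (f /ₘ g)) ≤ 1 := (V.valuation_le_one_iff _).2 hhη
  have hs1 : V.valuation (aeval η (f %ₘ g)) < 1 := by
    have h2 : aeval η (f %ₘ g) = -(aeval η g * aeval η (f /ₘ g)) := by
      have h3 := congrArg (aeval η) hdm
      rw [map_add, map_mul, h0] at h3
      exact eq_neg_of_add_eq_zero_left h3
    rw [h2, Valuation.map_neg, map_mul]
    exact mul_lt_one_of_lt_of_le hg1 hhη1
  have hs2 := key _ hs (degree_modByMonic_lt f hgm) hs1
  refine ⟨f, g, f /ₘ g, hm, hgm, hf, hg, hh, ?_, h0, hg1, ?_, key⟩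
  · intro i
    have h2 : f - g * (f /ₘ g) = f %ₘ g := by
      rw [sub_eq_iff_eq_add]
      exact hdm.symm
    rw [h2]
    exact hs2 i
  · apply le_antisymm hhη1
    by_contra hcon
    push Not at hcon
    have h2 : aeval η (derivative f) = aeval η (derivative (f %ₘ g)) +
        (aeval η (derivative g) * aeval η (f /ₘ g) + aeval η g * aeval η (derivative (f /ₘ g))) := by
      conv_lhs => rw [← hdm]
      rw [derivative_add, derivative_mul, map_add, map_add, map_mul, map_mul]
    have h3 : V.valuation (aeval η (derivative f)) < 1 := by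
      rw [h2]
      refine lt_of_le_of_lt (Valuation.map_add _ _ _) (max_lt (aeval_lt (der_lt hs2) hη) ?_)
      refine lt_of_le_of_lt (Valuation.map_add _ _ _) (max_lt ?_ ?_)
      · rw [map_mul, mul_comm]
        exact mul_lt_one_of_lt_of_le hcon ((V.valuation_le_one_iff _).2 (hg.der.aeval_mem hη))
      · rw [map_mul]
        exact mul_lt_one_of_lt_of_le hg1 ((V.valuation_le_one_iff _).2 (hh.der.aeval_mem hη))
    exact h3.ne h1

end

theorem et : Pool.Agent.H176.DT.S_et.{u} := by
  intro E F _ _ _ V η f hm hf h0 h1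
  obtain ⟨μ, g, h, H⟩ := core V η f hm hf h0 h1
  exact ⟨μ, g, h, H⟩

end Pool.Agent.Y901.DT
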